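import Pool.Agent.H200M.Stm

/-! Project MC, job SLAB: slabs of a right triangle with boxes. -/

set_option autoImplicit false

namespace Pool.Agent.Q166.MC

open Finset Pool.Agent.TH176.Nag Pool.Agent.TH603.Sur Pool.Agent.TH2.NU Pool.Agent.TH641.UM
open Pool.Agent.Y205.FW Pool.Agent.Y205.MD Pool.Agent.H200W Pool.Agent.H200P Pool.Agent.H200C
open Pool.Agent.H200G Pool.Agent.H200M

theorem slabRS : S_SlabRS := by
  intro hbox h u G ρ hh hG hu huG hρ B
  induction B with
  | nil =>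
    intro w b hw _ hb
    rw [List.map_nil, List.sum_nil] at hb
    have hw0 : 0 ≤ w := by linarith
    have hρw : 0 ≤ ρ * w := mul_nonneg hρ hw0
    have h1 : GoodS h u (TO b ρ w) ((2 * b - ρ * w) * w - 2 * w) :=
      p_fatS hh (by linarith) hρ (by linarith)
    have h2 := Pool.Agent.H200P.GoodS.toK h1
    have e1 : pm [] = 0 := rfl
    have e2 : sq1 [] = 0 := rfl
    rw [e1, e2, sub_zero]
    exact h2.mono (by linarith) (fun _ hM => hM)
  | cons p B ih =>
    obtain ⟨M, M'⟩ := p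
    intro w b hw hB hb
    rw [List.map_cons, List.sum_cons] at hb
    have hp := hB (M, M') (List.mem_cons_self ..)
    simp only at hp
    set m : ℝ := max (M : ℝ) (M' : ℝ) with hm
    have hht : ht G (M, M') = m + 2 + 2 * G := rfl
    rw [hht] at hb
    have hM1 : (M : ℝ) ≤ m := le_max_left _ _
    have hM2 : (M' : ℝ) ≤ m := le_max_right _ _
    have hm0 : 0 ≤ m := le_trans (Nat.cast_nonneg M) hM1
    have hMn : (0 : ℝ) ≤ M := Nat.cast_nonneg M
    have hMn' : (0 : ℝ) ≤ M' := Nat.cast_nonneg M'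
    have hmw : m + 2 + 13 * G ≤ w := by
      have : m ≤ w - 2 - 13 * G := max_le (by linarith) (by linarith)
      linarith
    have hG5 : 5 ≤ G := by linarith
    have hw0 : 0 ≤ w := by linarith
    have hρw : 0 ≤ ρ * w := mul_nonneg hρ hw0
    have hS0 : 0 ≤ (B.map (ht G)).sum := by
      refine List.sum_nonneg fun x hx => ?_
      rw [List.mem_map] at hx
      obtain ⟨q, -, rfl⟩ := hx
      unfold ht
      have : (0 : ℝ) ≤ max (q.1 : ℝ) (q.2 : ℝ) := le_trans (Nat.cast_nonneg q.1) (le_max_left _ _)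
      linarith
    rw [Q162.PK.pm_cons, Q162.PK.sq1_cons]
    simp only
    refine divKS (t0 := m + 2 + G) (t1 := m + 2 + 2 * G) (fun t => BO t w)
      (fun t => {p : ℤ × ℤ | t < (p.1 : ℝ) ∧ p ∈ TO b ρ w})
      (fun t => 2 * w * t - ((M : ℝ) + 1) ^ 2 - ((M' : ℝ) + 1) ^ 2 - 6 * t)
      (fun t => (2 * (b - t) - ρ * w) * w - sq1 B - 6 * (b - t)) (by linarith) ?_ ?_ ?_ hu ?_ ?_ ?_ ?_
    · exact Continuous.continuousOn (by fun_prop)
    · nlinarith
    · nlinarith
    · intro t _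
      exact le_of_eq (by ring)
    · intro t ht'
      exact (hbox hh hG hu huG (by linarith [ht'.1]) (by linarith [ht'.1]) (by linarith [ht'.1])
        hp.1 hp.2).1
    · intro t ht'
      refine (ih w (b - t) hw (fun q hq => hB q (List.mem_cons_of_mem _ hq))
        (by linarith [ht'.2])).mono le_rfl ?_
      intro K hK
      refine Sur.shift hK (-⌊t⌋) 0 ?_
      rintro q ⟨q1, q2, q3, q4⟩
      have f1 := Int.floor_le t
      have f2 := Int.lt_floor_add_one t
      have q5 : (1 : ℝ) ≤ q.1 := by exact_mod_cast q1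
      have g1 : t < ((q.1 - -⌊t⌋ : ℤ) : ℝ) := by
        push_cast
        linarith
      refine ⟨g1, ?_, ?_, ?_, ?_⟩
      · have : (0 : ℝ) < ((q.1 - -⌊t⌋ : ℤ) : ℝ) := by linarith [ht'.1]
        exact_mod_cast this
      · simpa using q2
      · simpa using q3
      · simp only [sub_zero]
        push_cast
        linarith
    · intro t ht' M1 M2 g1 g2
      refine p_cutS 1 0 t ?_ ?_ g1 g2
      · rintro q ⟨q1, q2, q3, q4⟩
        refine ⟨⟨q1, q2, q4, ?_⟩, by linarith⟩
        have h5 : ρ * (q.2 : ℝ) ≤ ρ * w := mul_le_mul_of_nonneg_left q4.le hρ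
        linarith [ht'.2]
      · rintro q ⟨q1, q2⟩
        exact ⟨q2, by linarith⟩

theorem TC_finite {b ρ w : ℝ} (hρ : 0 ≤ ρ) : (TC b ρ w).Finite := by
  refine Set.Finite.subset (Set.finite_Icc ((0 : ℤ), (0 : ℤ)) (⌊b⌋, ⌊w⌋)) ?_
  rintro q ⟨q1, q2, q3, q4⟩
  have q5 : (0 : ℝ) ≤ q.2 := by exact_mod_cast q2
  have q6 : 0 ≤ ρ * (q.2 : ℝ) := mul_nonneg hρ q5
  exact ⟨⟨q1, q2⟩, ⟨Int.le_floor.2 (by linarith), Int.le_floor.2 q3⟩⟩

theorem slabRE : S_SlabRE := by
  intro hbox h u G ρ hh hG hu huG hρ B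
  induction B with
  | nil =>
    intro w b hw _ hb
    rw [List.map_nil, List.sum_nil] at hb
    have h1 : GoodE h u (TC b ρ w) ((2 * b - ρ * w) * w) :=
      p_fatE hh (by linarith) hρ (by linarith)
    have h2 := Pool.Agent.H200P.GoodE.toK h1
    have e1 : pm [] = 0 := rfl
    have e2 : sq0 [] = 0 := rfl
    rw [e1, e2, sub_zero]
    exact h2
  | cons p B ih =>
    obtain ⟨M, M'⟩ := p
    intro w b hw hB hb
    rw [List.map_cons, List.sum_cons] at hb
    have hp := hB (M, M') (List.mem_cons_self ..)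
    simp only at hp
    set m : ℝ := max (M : ℝ) (M' : ℝ) with hm
    have hht : ht G (M, M') = m + 2 + 2 * G := rfl
    rw [hht] at hb
    have hM1 : (M : ℝ) ≤ m := le_max_left _ _
    have hM2 : (M' : ℝ) ≤ m := le_max_right _ _
    have hm0 : 0 ≤ m := le_trans (Nat.cast_nonneg M) hM1
    have hMn : (0 : ℝ) ≤ M := Nat.cast_nonneg M
    have hMn' : (0 : ℝ) ≤ M' := Nat.cast_nonneg M'
    have hmw : m + 2 + 13 * G ≤ w := by
      have : m ≤ w - 2 - 13 * G := max_le (by linarith) (by linarith)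
      linarith
    have hG5 : 5 ≤ G := by linarith
    have hw0 : 0 ≤ w := by linarith
    have hρw : 0 ≤ ρ * w := mul_nonneg hρ hw0
    have hsq := Q162.PK.sq0_le hG5 B fun q hq => hB q (List.mem_cons_of_mem _ hq)
    rw [Q162.PK.pm_cons, Q162.PK.sq0_cons]
    simp only
    refine divKE (t0 := m + 2 + G) (t1 := m + 2 + 2 * G) (fun t => BC t w)
      (fun t => {p : ℤ × ℤ | t < (p.1 : ℝ) ∧ p ∈ TC b ρ w})
      (fun t => 2 * w * t - (M : ℝ) ^ 2 - (M' : ℝ) ^ 2)
      (fun t => (2 * (b - t) - ρ * w) * w - sq0 B) (by linarith) ?_ ?_ ?_ hu ?_ ?_ ?_ ?_ ?_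
    · exact Continuous.continuousOn (by fun_prop)
    · nlinarith
    · nlinarith
    · intro t _
      exact le_of_eq (by ring)
    · intro t ht'
      have h1 : ρ * w + w + 1 + (B.map (ht G)).sum ≤ b - t := by linarith [ht'.2]
      have h2 : w * (ρ * w + w + 1 + (B.map (ht G)).sum) ≤ w * (b - t) :=
        mul_le_mul_of_nonneg_left h1 hw0
      have h3 : 0 ≤ w * (ρ * w) := mul_nonneg hw0 hρw
      have h4 : 0 ≤ w * w := mul_nonneg hw0 hw0
      nlinarith
    · intro t ht'
      exact (hbox hh hG hu huG (by linarith [ht'.1]) (by linarith [ht'.1]) (by linarith [ht'.1])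
        hp.1 hp.2).2
    · intro t ht'
      refine (ih w (b - t) hw (fun q hq => hB q (List.mem_cons_of_mem _ hq))
        (by linarith [ht'.2])).mono le_rfl ?_
      intro K hK
      refine Emp.comap hK 1 0 0 1 (-⌊t⌋ - 1) 0 (by norm_num) ?_
      rintro q ⟨q0, q1, q2, q3, q4⟩
      have f1 := Int.floor_le t
      have f2 := Int.lt_floor_add_one t
      have g1 : ⌊t⌋ < q.1 := Int.floor_lt.2 q0
      refine ⟨?_, ?_, ?_, ?_⟩
      · simp only
        omega
      · simpa using q2
      · simpa using q3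
      · simp only [one_mul, zero_mul, add_zero, zero_add]
        push_cast
        linarith
    · intro t ht' M1 M2 g1 g2
      refine p_cutE 1 0 t (TC_finite hρ) ?_ g1 g2
      rintro q ⟨q1, q2, q3, q4⟩
      rcases le_or_gt (q.1 : ℝ) t with g | g
      · left
        exact ⟨⟨q1, q2, g, q3⟩, by linarith⟩
      · right
        exact ⟨⟨g, q1, q2, q3, q4⟩, by linarith⟩

end Pool.Agent.Q166.MC
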