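import Pool.Agent.H200M.Stm

/-! Project MC, job TRI: right triangles with slabs. -/

set_option autoImplicit false

namespace Pool.Agent.Q166.MC

open Finset Pool.Agent.TH176.Nag Pool.Agent.TH603.Sur Pool.Agent.TH2.NU Pool.Agent.TH641.UM
open Pool.Agent.Y205.FW Pool.Agent.Y205.MD Pool.Agent.H200W Pool.Agent.H200P Pool.Agent.H200C
open Pool.Agent.H200G Pool.Agent.H200M

theorem sqr_aux {b ρ w : ℝ} (hρ : 0 < ρ) : (b - ρ * w) ^ 2 / ρ = b ^ 2 / ρ - (2 * b - ρ * w) * w := by
  field_simp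
  ring

theorem fitP : S_FitP := by
  intro G ρ hG hρ L
  have hρ0 : 0 < ρ := by linarith
  induction L with
  | nil =>
    intro b b' h
    change 14 * G ≤ b at h
    refine ⟨fun h1 => ?_, ?_, ?_, h⟩
    · change 14 * G ≤ b'
      linarith
    · simp only [List.length_nil, Nat.cast_zero, mul_zero]
      linarith
    · have e1 : sqT0 [] = 0 := by simp [sqT0]
      rw [e1]
      positivity
  | cons x L ih =>
    obtain ⟨W, B⟩ := x
    intro b b' h
    obtain ⟨h1, h2, h3, h4⟩ := h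
    obtain ⟨-, i2, i3, i4⟩ := ih (b - ρ * (W + G)) (b - ρ * (W + G)) h4
    have hs := Q211.PK.sum_ht_nonneg hG B
    have hw0 : 0 ≤ W + G := by linarith
    have hρw : 0 ≤ ρ * (W + G) := mul_nonneg hρ0.le hw0
    refine ⟨fun h5 => ⟨h1, h2, by linarith,
      ((ih (b - ρ * (W + G)) (b' - ρ * (W + G)) h4).1 (by linarith))⟩, ?_, ?_, by linarith⟩
    · simp only [List.length_cons, Nat.cast_add, Nat.cast_one]
      have h6 : ρ * (16 * G) ≤ ρ * (W + G) := mul_le_mul_of_nonneg_left (by linarith) hρ0.le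
      linarith
    · have e1 : sqT0 ((W, B) :: L) = sq0 B + sqT0 L := by
        unfold sqT0
        rw [List.map_cons, List.sum_cons]
      obtain ⟨w, hw⟩ : ∃ w, w = W + G := ⟨_, rfl⟩
      rw [← hw] at i3 h3 hw0 hρw
      have h6 := Q211.PK.sq0_le (w := w) hG B fun p hp => by
        obtain ⟨a1, a2⟩ := h2 p hp
        rw [hw]
        constructor <;> linarith
      rw [sqr_aux hρ0] at i3
      rw [e1]
      have h7 : w * (B.map (ht G)).sum ≤ w * (b - ρ * w) := mul_le_mul_of_nonneg_left (by linarith) hw0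
      have h8 : 0 ≤ w * (ρ * w) := mul_nonneg hw0 hρw
      nlinarith

theorem triRS : S_TriRS := by
  intro hslab hfit h u G ρ hh hG hu huG hρ hρ7 L
  have hG5 : 5 ≤ G := by linarith
  have hρ0 : 0 < ρ := by linarith
  induction L with
  | nil =>
    intro b hb
    have hb' : 14 * G ≤ b := hb
    have hb0 : 0 ≤ b := by linarith
    have h7 : ρ * h ≤ 7 * h := mul_le_mul_of_nonneg_right hρ7 (by linarith)
    have h1 := Pool.Agent.H200P.GoodS.toK (p_rtS (h := h) (u := u) (b := b) (ρ := ρ) (by linarith) hρ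
      (by nlinarith))
    have e1 : pmT [] = 0 := rfl
    have e2 : sqT1 [] = 0 := rfl
    rw [e1, e2]
    refine h1.mono ?_ (fun _ hM => hM)
    have : b / ρ ≤ b := div_le_self hb0 (by linarith)
    simp only [List.length_nil, Nat.cast_zero, mul_zero, zero_add, one_mul, sub_zero]
    linarith
  | cons x L ih =>
    obtain ⟨W, B⟩ := x
    intro b hb
    obtain ⟨hW, hB, hsum, hrest⟩ := hb
    obtain ⟨hsq, hS0⟩ := Q162.PK.sq1_le hG5 B hB
    have e1 : pmT ((W, B) :: L) = pm B + pmT L := rfl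
    have e2 : sqT1 ((W, B) :: L) = sq1 B + sqT1 L := by
      unfold sqT1
      rw [List.map_cons, List.sum_cons]
    rw [e1, e2, List.length_cons]
    refine divKS (t0 := W) (t1 := W + G) (fun t => TO b ρ t)
      (fun t => {p : ℤ × ℤ | t < (p.2 : ℝ) ∧ p ∈ RO b ρ})
      (fun t => (2 * b - ρ * t) * t - sq1 B - 6 * b)
      (fun t => (b - ρ * t) ^ 2 / ρ - sqT1 L - (6 * L.length + 1) * (b - ρ * t)) (by linarith) ?_ ?_ ?_ hu
      ?_ ?_ ?_ ?_
    · exact Continuous.continuousOn (by fun_prop)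
    · have h1 : (2 * W - 6) * (ρ * (W + G) + (W + G) + 1 + (B.map (ht G)).sum) ≤ (2 * W - 6) * b :=
        mul_le_mul_of_nonneg_left hsum (by linarith)
      have h2 : 0 ≤ ρ * W * (W - 6) := mul_nonneg (mul_nonneg hρ0.le (by linarith)) (by linarith)
      have h3 : 0 ≤ (2 * W - 6) * (ρ * G) := mul_nonneg (by linarith) (mul_nonneg hρ0.le (by linarith))
      have h4 : 0 ≤ (2 * W - 6) * (W + G + 1) := mul_nonneg (by linarith) (by linarith)
      nlinarith
    · have h1 : 0 ≤ G * (b - (ρ * (W + G) + (W + G))) := mul_nonneg (by linarith) (by linarith)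
      have h2 : 0 ≤ ρ * G * G := mul_nonneg (mul_nonneg hρ0.le (by linarith)) (by linarith)
      have h3 : 0 ≤ G * W := mul_nonneg (by linarith) (by linarith)
      nlinarith
    · intro t ht'
      have h1 : (0 : ℝ) ≤ (6 * L.length + 1) * (ρ * t) := by
        have : 0 ≤ t := by linarith [ht'.1]
        positivity
      rw [sqr_aux hρ0]
      push_cast
      nlinarith
    · intro t ht'
      have h1 : ρ * t ≤ ρ * (W + G) := mul_le_mul_of_nonneg_left ht'.2 hρ0.le
      exact hslab hh hG hu huG hρ0.le B t b (by linarith [ht'.1])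
        (fun p hp => ⟨by linarith [(hB p hp).1, ht'.1], by linarith [(hB p hp).2, ht'.1]⟩)
        (by linarith [ht'.2])
    · intro t ht'
      have h1 : ρ * t ≤ ρ * (W + G) := mul_le_mul_of_nonneg_left ht'.2 hρ0.le
      refine (ih (b - ρ * t) ((hfit (by linarith) hρ L _ (b - ρ * t) hrest).1 (by linarith))).mono
        le_rfl ?_
      intro K hK
      refine Sur.shift hK 0 (-⌊t⌋) ?_
      rintro q ⟨q1, q2, q4⟩
      have f1 := Int.floor_le t
      have f2 := Int.lt_floor_add_one t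
      have q5 : (1 : ℝ) ≤ q.2 := by exact_mod_cast q2
      have g1 : t < ((q.2 - -⌊t⌋ : ℤ) : ℝ) := by
        push_cast
        linarith
      have g2 : ρ * (⌊t⌋ : ℝ) ≤ ρ * t := mul_le_mul_of_nonneg_left f1 hρ0.le
      refine ⟨g1, ?_, ?_, ?_⟩
      · simpa using q1
      · have : (0 : ℝ) < ((q.2 - -⌊t⌋ : ℤ) : ℝ) := by linarith [ht'.1]
        exact_mod_cast this
      · simp only [sub_zero]
        push_cast
        nlinarith
    · intro t ht' M1 M2 g1 g2
      refine p_cutS 0 1 t ?_ ?_ g1 g2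
      · rintro q ⟨q1, q2, q3, q4⟩
        exact ⟨⟨q1, q2, q4⟩, by linarith⟩
      · rintro q ⟨q1, q2⟩
        exact ⟨q2, by linarith⟩

theorem RC_finite {b ρ : ℝ} (hρ : 0 < ρ) : (RC b ρ).Finite := by
  refine Set.Finite.subset (Set.finite_Icc ((0 : ℤ), (0 : ℤ)) (⌊b⌋, ⌊b / ρ⌋)) ?_
  rintro q ⟨q1, q2, q4⟩
  have q3 : (0 : ℝ) ≤ q.1 := by exact_mod_cast q1
  have q5 : (0 : ℝ) ≤ q.2 := by exact_mod_cast q2
  have q6 : 0 ≤ ρ * (q.2 : ℝ) := mul_nonneg hρ.le q5
  refine ⟨⟨q1, q2⟩, ⟨Int.le_floor.2 (by linarith), Int.le_floor.2 ?_⟩⟩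
  rw [le_div_iff₀ hρ]
  linarith

theorem triRE : S_TriRE := by
  intro hslab hfit h u G ρ hh hG hu huG hρ hρ7 L
  have hG0 : 0 < G := by linarith
  have hρ0 : 0 < ρ := by linarith
  induction L with
  | nil =>
    intro b hb
    have hb' : 14 * G ≤ b := hb
    have h7 : ρ * h ≤ 7 * h := mul_le_mul_of_nonneg_right hρ7 (by linarith)
    have k := Pool.Agent.H200P.GoodE.toK (p_rtE (h := h) (u := u) (b := b) (ρ := ρ) (by linarith) hρ
      (by nlinarith))
    refine k.mono ?_ fun N hN => hN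
    simp [sqT0]
  | cons x L ih =>
    obtain ⟨W, B⟩ := x
    intro b hb
    obtain ⟨f1, f2, f3, f4⟩ := hb
    have hs0 := Q285.PK.sum_ht_nonneg hG0.le B
    have hW0 : 0 ≤ W := by linarith
    have hρW : 0 ≤ ρ * W := mul_nonneg hρ0.le hW0
    have hρG : 0 ≤ ρ * G := mul_nonneg hρ0.le hG0.le
    have hsq := Q285.PK.sq0_le hG0.le hW0 B fun p hp => by
      obtain ⟨g1, g2⟩ := f2 p hp
      exact ⟨by linarith, by linarith⟩
    have epm : pmT ((W, B) :: L) = pm B + pmT L := by
      unfold pmT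
      rw [List.map_cons, List.sum_cons]
    have esq : sqT0 ((W, B) :: L) = sq0 B + sqT0 L := by
      unfold sqT0
      rw [List.map_cons, List.sum_cons]
    rw [epm, esq]
    have hfitt : ∀ t ∈ Set.Icc W (W + G), FitR G ρ (b - ρ * t) L := fun t ht =>
      (hfit hG0 hρ L (b - ρ * (W + G)) (b - ρ * t) f4).1 (by
        have := mul_le_mul_of_nonneg_left ht.2 hρ0.le
        linarith)
    refine divKE (t0 := W) (t1 := W + G) (fun t => TC b ρ t)
      (fun t => {p : ℤ × ℤ | t < (p.2 : ℝ) ∧ p ∈ RC b ρ})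
      (fun t => (2 * b - ρ * t) * t - sq0 B) (fun t => (b - ρ * t) ^ 2 / ρ - sqT0 L) (by linarith)
      ?_ ?_ ?_ hu ?_ ?_ ?_ ?_ ?_
    · fun_prop
    · have h1 : 2 * W * (ρ * W + (B.map (ht G)).sum) ≤ 2 * W * b :=
        mul_le_mul_of_nonneg_left (by linarith) (by linarith)
      have h2 : 0 ≤ W * (ρ * W) := mul_nonneg hW0 hρW
      nlinarith
    · have h1 : 0 ≤ G * (b - (ρ * (W + G) + (W + G))) := mul_nonneg hG0.le (by linarith)
      have h2 : 0 ≤ ρ * G * G := mul_nonneg hρG hG0.le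
      have h3 : 0 ≤ G * W := mul_nonneg hG0.le hW0
      nlinarith
    · intro t _
      rw [sqr_aux hρ0]
      linarith
    · intro t ht
      have h1 := (hfit hG0 hρ L (b - ρ * t) (b - ρ * t) (hfitt t ht)).2.2.1
      linarith
    · intro t ht
      have h1 := ht.1
      have h2 := ht.2
      have h3 := mul_le_mul_of_nonneg_left ht.2 hρ0.le
      exact hslab hh hG hu huG hρ0.le B t b (by linarith) (fun p hp => by
        obtain ⟨g1, g2⟩ := f2 p hp
        exact ⟨by linarith, by linarith⟩) (by linarith)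
    · intro t ht
      refine (ih (b - ρ * t) (hfitt t ht)).mono (le_refl _) fun N hN => ?_
      refine Emp.comap hN 1 0 0 1 0 (-(⌊t⌋ + 1)) (by norm_num) ?_
      rintro ⟨x, y⟩ ⟨a1, a2, a3, a4⟩
      simp only at a1 a2 a3 a4
      have e1 : ⌊t⌋ < y := Int.floor_lt.2 a1
      have e2 := Int.lt_floor_add_one t
      refine ⟨?_, ?_, ?_⟩
      · simp only
        omega
      · simp only
        omega
      · simp only
        push_cast
        have g2 : ρ * t ≤ ρ * ((⌊t⌋ : ℝ) + 1) := mul_le_mul_of_nonneg_left e2.le hρ0.le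
        nlinarith
    · intro t ht N1 N2 hN1 hN2
      refine p_cutE 0 1 t (RC_finite hρ0) ?_ hN1 hN2
      rintro p ⟨a1, a2, a3⟩
      rcases le_or_gt (p.2 : ℝ) t with hp | hp
      · left
        exact ⟨⟨a1, a2, hp, a3⟩, by linarith⟩
      · right
        exact ⟨⟨hp, a1, a2, a3⟩, by linarith⟩

end Pool.Agent.Q166.MC
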